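import Pool.Agent.Y822.G.Stm

/-! # Polynomials: roots, values and resultants (`PolStm`) -/

set_option autoImplicit false

namespace Pool.Agent.Y779.GL

open Finset Polynomial
open Pool.Agent.Y822.G

theorem per (f : Polynomial ℤ) : Per (RP f) := by
  intro p n
  unfold RP
  have h1 : (p : ℤ) ∣ (n : ℤ) - ((n % p : ℕ) : ℤ) := by
    refine ⟨(n / p : ℕ), ?_⟩
    have := Nat.div_add_mod n p
    have h2 : (n : ℤ) = (p : ℤ) * ((n / p : ℕ) : ℤ) + ((n % p : ℕ) : ℤ) := by
      exact_mod_cast this.symm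
    linarith
  have h2 : (p : ℤ) ∣ f.eval (n : ℤ) - f.eval ((n % p : ℕ) : ℤ) :=
    h1.trans (Polynomial.sub_dvd_eval_sub _ _ f)
  exact ((dvd_iff_dvd_of_dvd_sub h2)).symm

theorem rho_le (f : Polynomial ℤ) (p : ℕ) (hp : p.Prime) (h : ∃ n : ℕ, ¬ (p : ℤ) ∣ f.eval (n : ℤ)) :
    rho (RP f) p ≤ f.natDegree := by
  classical
  have := Fact.mk hp
  set φ := Int.castRingHom (ZMod p)
  have hev : ∀ r : ℕ, (f.map φ).eval (r : ZMod p) = ((f.eval (r : ℤ) : ℤ) : ZMod p) := by
    intro r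
    have := Polynomial.eval_intCast_map φ f (r : ℤ)
    rw [Int.cast_natCast] at this
    exact this
  have hne : f.map φ ≠ 0 := by
    intro h0
    obtain ⟨n, hn⟩ := h
    apply hn
    rw [← ZMod.intCast_zmod_eq_zero_iff_dvd, ← hev, h0, eval_zero]
  refine le_trans ?_ ((card_roots' (f.map φ)).trans natDegree_map_le)
  refine le_trans ?_ (Multiset.toFinset_card_le _)
  unfold rho
  refine Finset.card_le_card_of_injOn (fun r => (r : ZMod p)) ?_ ?_
  · intro r hr
    rw [Finset.mem_coe, mem_filter] at hr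
    rw [Finset.mem_coe, Multiset.mem_toFinset, mem_roots hne, IsRoot.def, hev,
      ZMod.intCast_zmod_eq_zero_iff_dvd]
    exact hr.2
  · intro r hr s hs hrs
    rw [Finset.mem_coe, mem_filter, mem_range] at hr hs
    have h1 := congrArg ZMod.val hrs
    rwa [ZMod.val_cast_of_lt hr.1, ZMod.val_cast_of_lt hs.1] at h1

theorem eval_le {D C X : ℕ} (hX : D + 1 ≤ X) (f : Polynomial ℤ) (hf : f.natDegree ≤ D)
    (hc : ∀ i, |f.coeff i| ≤ (X : ℤ) ^ C) (n : ℕ) (hn : n ≤ X) :
    |f.eval (n : ℤ)| ≤ (X : ℤ) ^ (C + D + 1) := by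
  have hX1 : (1 : ℤ) ≤ X := by
    have : 1 ≤ X := by omega
    exact_mod_cast this
  rw [eval_eq_sum_range' (Nat.lt_succ_of_le hf)]
  refine (abs_sum_le_sum_abs _ _).trans ?_
  have h1 : ∀ i ∈ range D.succ, |f.coeff i * (n : ℤ) ^ i| ≤ (X : ℤ) ^ (C + D) := by
    intro i hi
    rw [mem_range] at hi
    rw [abs_mul, pow_add, abs_pow, Nat.abs_cast]
    refine mul_le_mul (hc i) ?_ (by positivity) (by positivity)
    calc (n : ℤ) ^ i ≤ (X : ℤ) ^ i := by
          apply pow_le_pow_left₀ (by positivity)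
          exact_mod_cast hn
      _ ≤ (X : ℤ) ^ D := pow_le_pow_right₀ hX1 (by omega)
  refine (sum_le_sum h1).trans ?_
  rw [sum_const, card_range, nsmul_eq_mul, pow_succ (X : ℤ) (C + D), mul_comm]
  refine mul_le_mul_of_nonneg_left ?_ (by positivity)
  exact_mod_cast hX

theorem res_le {D C X : ℕ} (hX : (2 * D).factorial ≤ X) (f g : Polynomial ℤ)
    (hf : f.natDegree ≤ D) (hcf : ∀ i, |f.coeff i| ≤ (X : ℤ) ^ C) (hg : g.natDegree ≤ D)
    (hcg : ∀ i, |g.coeff i| ≤ (X : ℤ) ^ C) : |resultant f g| ≤ (X : ℤ) ^ (2 * D * C + 1) := by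
  have hX0 : 1 ≤ X := (Nat.factorial_pos _).trans_le hX
  have hX1 : (1 : ℤ) ≤ X := by exact_mod_cast hX0
  have h1 : ∀ i j, AbsoluteValue.abs (sylvester f g f.natDegree g.natDegree i j) ≤ (X : ℤ) ^ C := by
    intro i j
    rw [AbsoluteValue.abs_apply]
    unfold sylvester
    rw [Matrix.of_apply]
    refine Fin.addCases (motive := fun j => |Fin.addCases _ _ j| ≤ (X : ℤ) ^ C) ?_ ?_ j
    · intro j1
      rw [Fin.addCases_left]
      split_ifs
      · exact hcg _
      · rw [abs_zero]; positivity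
    · intro j1
      rw [Fin.addCases_right]
      split_ifs
      · exact hcf _
      · rw [abs_zero]; positivity
  have h2 := Matrix.det_le (abv := AbsoluteValue.abs) h1
  rw [AbsoluteValue.abs_apply, Fintype.card_fin, nsmul_eq_mul] at h2
  have h3 : |resultant f g| ≤ ((f.natDegree + g.natDegree).factorial : ℤ) *
      ((X : ℤ) ^ C) ^ (f.natDegree + g.natDegree) := h2
  refine h3.trans ?_
  have h4 : ((f.natDegree + g.natDegree).factorial : ℤ) ≤ X := by
    have : (f.natDegree + g.natDegree).factorial ≤ X :=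
      (Nat.factorial_le (by omega)).trans hX
    exact_mod_cast this
  rw [pow_succ, mul_comm ((X : ℤ) ^ (2 * D * C))]
  refine mul_le_mul h4 ?_ (by positivity) (by positivity)
  rw [← pow_mul, mul_comm C]
  exact pow_le_pow_right₀ hX1 (Nat.mul_le_mul_right _ (by omega))

theorem pol : PolStm := by
  refine ⟨per, rho_le, fun D C => ⟨2 * D * C + C + D + 1, (2 * D).factorial + D + 1, ?_⟩⟩
  intro X hX f hf hcf
  have hX0 : 1 ≤ X := by omega
  have hX1 : (1 : ℤ) ≤ X := by exact_mod_cast hX0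
  have hmono : ∀ k, k ≤ 2 * D * C + C + D + 1 → (X : ℤ) ^ k ≤ (X : ℤ) ^ (2 * D * C + C + D + 1) :=
    fun k hk => pow_le_pow_right₀ hX1 hk
  refine ⟨fun n hn => (eval_le (by omega) f hf hcf n hn).trans (hmono _ (by omega)), ?_⟩
  intro g hg hcg hcop
  have key : ∀ Δ : ℤ, Δ ≠ 0 → |Δ| ≤ (X : ℤ) ^ (2 * D * C + C + D + 1) →
      (∀ p : ℕ, p.Prime → ∀ n : ℕ, RP f p n → RP g p n → (p : ℤ) ∣ Δ) →
      ∃ Δ : ℕ, 1 ≤ Δ ∧ Δ ≤ X ^ (2 * D * C + C + D + 1) ∧
        ∀ p : ℕ, p.Prime → ∀ n : ℕ, RP f p n → RP g p n → p ∣ Δ := by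
    intro Δ h0 h1 h2
    refine ⟨Δ.natAbs, Int.natAbs_pos.2 h0, ?_, fun p hp n a b => ?_⟩
    · have h3 : ((Δ.natAbs : ℕ) : ℤ) ≤ ((X ^ (2 * D * C + C + D + 1) : ℕ) : ℤ) := by
        rw [Int.natCast_natAbs]
        push_cast
        exact h1
      exact_mod_cast h3
    · exact Int.natCast_dvd.1 (h2 p hp n a b)
  by_cases hdeg : f.natDegree ≠ 0 ∨ g.natDegree ≠ 0
  · refine key (resultant f g) ?_ ((res_le (by omega) f g hf hcf hg hcg).trans (hmono _ (by omega)))
      ?_
    · intro h0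
      have hinj : Function.Injective (Int.castRingHom ℚ) := Int.cast_injective
      have h1 := resultant_ne_zero _ _ hcop
      rw [natDegree_map_eq_of_injective hinj, natDegree_map_eq_of_injective hinj,
        resultant_map_map, h0, map_zero] at h1
      exact h1 rfl
    · intro p hp n a b
      obtain ⟨u, v, -, -, huv⟩ := exists_mul_add_mul_eq_C_resultant f g le_rfl le_rfl hdeg
      have h1 := congrArg (Polynomial.eval (n : ℤ)) huv
      rw [eval_add, eval_mul, eval_mul, eval_C] at h1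
      rw [← h1]
      exact dvd_add (a.mul_right _) (b.mul_right _)
  · rw [not_or, not_not, not_not] at hdeg
    obtain ⟨h1, h2⟩ := hdeg
    have ef := eq_C_of_natDegree_eq_zero h1
    have eg := eq_C_of_natDegree_eq_zero h2
    by_cases h3 : f.coeff 0 = 0
    · have h4 : g.coeff 0 ≠ 0 := by
        intro h4
        rw [ef, eg, h3, h4] at hcop
        simp only [Polynomial.C_0, Polynomial.map_zero] at hcop
        exact not_isCoprime_zero_zero hcop
      refine key (g.coeff 0) h4 ((hcg 0).trans (hmono _ (by omega))) fun p _ n _ b => ?_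
      unfold RP at b
      rw [eg, eval_C] at b
      exact b
    · refine key (f.coeff 0) h3 ((hcf 0).trans (hmono _ (by omega))) fun p _ n a _ => ?_
      unfold RP at a
      rw [ef, eval_C] at a
      exact a

end Pool.Agent.Y779.GL
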